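import Pool.Agent.X198.Om1

/-!
# The image of a co-sober space under a continuous kernel operator need not be co-sober
-/

set_option autoImplicit false
set_option linter.style.haveILetI false

namespace Pool.Agent.Results.MP_1ae613_gt.KernelImage

open Set Pool.Agent.Helper761.Om Pool.Agent.X198.Om

section Definitions

variable {X : Type} [TopologicalSpace X]

/-- A set is saturated if it is the intersection of the open sets containing it. -/
def IsSat (S : Set X) : Prop := S = ⋂₀ {U | IsOpen U ∧ S ⊆ U}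

/-- A nonempty compact saturated set that is not the union of two compact saturated sets different
from it. -/
def KIrr (G : Set X) : Prop :=
  G.Nonempty ∧ IsCompact G ∧ IsSat G ∧ ∀ K₁ K₂ : Set X, IsCompact K₁ → IsSat K₁ → IsCompact K₂ →
    IsSat K₂ → K₁ ∪ K₂ = G → K₁ = G ∨ K₂ = G

/-- Each k-irreducible set is the set of all points above some point, in the specialization order
`x ≤ y` iff `x ∈ closure {y}`. -/
def CoSober (X : Type) [TopologicalSpace X] : Prop :=
  ∀ G : Set X, KIrr G → ∃ x : X, G = {y | x ∈ closure {y}}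

end Definitions

theorem isSat_iff {X : Type} [TopologicalSpace X] {S : Set X} :
    IsSat S ↔ ∀ x ∈ S, ∀ y, x ∈ closure {y} → y ∈ S := by
  constructor
  · intro h x hx y hxy
    rw [h, mem_sInter]
    rintro U ⟨hU, hSU⟩
    obtain ⟨z, hz1, hz2⟩ := mem_closure_iff.1 hxy U hU (hSU hx)
    rwa [mem_singleton_iff.1 hz2] at hz1
  · intro h
    apply Subset.antisymm
    · exact subset_sInter fun U hU => hU.2
    · intro y hy
      by_contra hyS
      have h1 : y ∈ (closure {y})ᶜ := by
        refine mem_sInter.1 hy _ ⟨isClosed_closure.isOpen_compl, fun x hx hxy => hyS (h x hx y hxy)⟩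
      exact h1 (subset_closure rfl)

/-- A compact `T₁` space with two points that is not the union of two proper compact subsets is
not co-sober. -/
theorem not_coSober {X : Type} [TopologicalSpace X] [T1Space X] [CompactSpace X] [Nontrivial X]
    (h : ∀ K₁ K₂ : Set X, IsCompact K₁ → IsCompact K₂ → K₁ ∪ K₂ = univ →
      K₁ = univ ∨ K₂ = univ) : ¬ CoSober X := by
  intro hX
  have hk : KIrr (univ : Set X) := by
    refine ⟨univ_nonempty, isCompact_univ, isSat_iff.2 fun _ _ _ _ => mem_univ _, ?_⟩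
    intro K₁ K₂ h1 _ h2 _ h3
    exact h K₁ K₂ h1 h2 h3
  obtain ⟨x, hx⟩ := hX _ hk
  obtain ⟨y, hy⟩ := exists_ne x
  have h1 : y ∈ {y | x ∈ closure {y}} := by rw [← hx]; exact mem_univ y
  change x ∈ closure {y} at h1
  rw [closure_singleton] at h1
  exact hy (mem_singleton_iff.1 h1).symm

/-! ### The base space -/

/-- accumulation points -/
def acc (C : Set Om1) : Set Om1 := {δ | Lim δ ∧ ∀ ξ < δ, ∃ c ∈ C, ξ < c ∧ c < δ}

theorem acc_mono {C D : Set Om1} (h : C ⊆ D) : acc C ⊆ acc D := by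
  rintro δ ⟨h1, h2⟩
  refine ⟨h1, fun ξ hξ => ?_⟩
  obtain ⟨c, hc, h3⟩ := h2 ξ hξ
  exact ⟨c, h hc, h3⟩

theorem acc_union {C D : Set Om1} : acc (C ∪ D) ⊆ acc C ∪ acc D := by
  rintro δ ⟨h1, h2⟩
  by_cases h : δ ∈ acc C
  · exact Or.inl h
  · right
    refine ⟨h1, fun ξ hξ => ?_⟩
    have h3 : ∃ ξ0 < δ, ∀ c ∈ C, ξ0 < c → ¬ c < δ := by
      by_contra! hcon
      exact h ⟨h1, hcon⟩
    obtain ⟨ξ0, hξ0, h4⟩ := h3
    obtain ⟨c, hc, h5, h6⟩ := h2 (max ξ ξ0) (max_lt hξ hξ0)
    rcases hc with hc | hc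
    · exact absurd h6 (h4 c hc ((le_max_right _ _).trans_lt h5))
    · exact ⟨c, hc, (le_max_left _ _).trans_lt h5, h6⟩

/-- a set without accumulation points is finite -/
theorem finite_of_acc {C : Set Om1} (h : acc C = ∅) : C.Finite := by
  by_contra hinf
  have hinf' : C.Infinite := hinf
  -- a strictly increasing sequence in `C`
  have h1 : ∃ s : ℕ → Om1, (∀ n, s n < s (n + 1)) ∧ ∀ n, s n ∈ C := by
    let f := hinf'.natEmbedding
    obtain ⟨g, hg | hg⟩ := exists_increasing_or_nonincreasing_subseq (· < ·)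
      (fun n => ((f n : C) : Om1))
    · exact ⟨fun n => (f (g n)).1, fun n => hg n (n + 1) (Nat.lt_succ_self n), fun n => (f _).2⟩
    · exfalso
      have hanti : StrictAnti (fun n => (f (g n)).1) := by
        intro m n hmn
        refine lt_of_le_of_ne (not_lt.1 (hg m n hmn)) fun h => ?_
        have := g.injective (f.injective (Subtype.ext h))
        omega
      exact not_strictAnti_of_wellFoundedLT _ hanti
  obtain ⟨s, hs1, hs2⟩ := h1
  obtain ⟨δ, hL, hlt, hcof⟩ := exists_lub om1_bounded s hs1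
  have h2 : δ ∈ acc C := by
    refine ⟨hL, fun ξ hξ => ?_⟩
    obtain ⟨n, hn⟩ := hcof ξ hξ
    exact ⟨s (n + 1), hs2 _, hn.trans_lt (hs1 n), hlt _⟩
  rw [h] at h2
  exact h2

/-- the proper closed sets of the base space -/
def Cl (l : Om1 → Om1) (C : Set Om1) : Prop := (acc C).Finite ∧ ∀ δ ∈ acc C, l δ ∈ C

/-- The topology of the base space. -/
@[reducible] def topY (l : Om1 → Om1) : TopologicalSpace Om1 :=
  TopologicalSpace.ofClosed {C | C = univ ∨ Cl l C}
    (by
      right
      have : acc (∅ : Set Om1) = ∅ := by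
        rw [eq_empty_iff_forall_notMem]
        rintro δ ⟨⟨⟨a, ha⟩, -⟩, h2⟩
        obtain ⟨c, hc, -⟩ := h2 a ha
        exact hc
      refine ⟨?_, ?_⟩
      · rw [this]; exact finite_empty
      · rw [this]; intro δ hδ; exact absurd hδ (notMem_empty _))
    (by
      intro A hA
      by_cases h : ∃ C ∈ A, C ≠ univ
      · obtain ⟨C, hC, hne⟩ := h
        have h1 : Cl l C := (hA hC).resolve_left hne
        right
        refine ⟨h1.1.subset (acc_mono (sInter_subset_of_mem hC)), fun δ hδ => ?_⟩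
        rw [mem_sInter]
        intro D hD
        rcases hA hD with h2 | h2
        · rw [h2]; exact mem_univ _
        · exact h2.2 δ (acc_mono (sInter_subset_of_mem hD) hδ)
      · left
        push Not at h
        rw [eq_univ_iff_forall]
        intro x
        rw [mem_sInter]
        intro C hC
        rw [h C hC]
        exact mem_univ x)
    (by
      rintro A (rfl | hA) B hB
      · left; exact univ_union B
      · rcases hB with rfl | hB
        · left; exact union_univ A
        · right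
          refine ⟨(hA.1.union hB.1).subset acc_union, fun δ hδ => ?_⟩
          rcases acc_union hδ with h | h
          · exact Or.inl (hA.2 δ h)
          · exact Or.inr (hB.2 δ h))

variable {l : Om1 → Om1}

theorem isClosed_Y {C : Set Om1} : @IsClosed _ (topY l) C ↔ C = univ ∨ Cl l C := by
  letI := topY l
  rw [← isOpen_compl_iff]
  change Cᶜᶜ ∈ {C | C = univ ∨ Cl l C} ↔ _
  rw [compl_compl]
  exact Iff.rfl

/-- the set of a sequence together with a point -/
theorem acc_seq {s : ℕ → Om1} (hs : StrictMono s) {δ : Om1} (hlt : ∀ n, s n < δ)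
    (hcof : ∀ a < δ, ∃ n, a ≤ s n) (y : Om1) (n : ℕ) :
    acc (insert y (s '' Ici n)) ⊆ {δ} := by
  rintro ε ⟨⟨⟨a, ha⟩, hnext⟩, h2⟩
  by_contra hne
  rw [mem_singleton_iff] at hne
  rcases lt_or_gt_of_ne hne with h | h
  · -- ε < δ : only finitely many elements below ε
    obtain ⟨m, hm⟩ := hcof ε h
    -- a bound below ε for the elements below ε
    have hfin : ({c | c ∈ insert y (s '' Ici n) ∧ c < ε}).Finite := by
      have h3 : (insert y (s '' Iic m)).Finite := ((finite_Iic m).image s).insert y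
      refine h3.subset ?_
      rintro c ⟨hc | ⟨k, -, rfl⟩, hcε⟩
      · exact Or.inl hc
      · refine Or.inr ⟨k, ?_, rfl⟩
        by_contra hk
        have : m < k := not_le.1 hk
        exact absurd (hcε.trans_le hm) (not_lt.2 (hs this).le)
    have h4 : ∃ b < ε, ∀ c ∈ {c | c ∈ insert y (s '' Ici n) ∧ c < ε}, c ≤ b := by
      by_cases hne' : {c | c ∈ insert y (s '' Ici n) ∧ c < ε}.Nonempty
      · obtain ⟨b, hb, hmax⟩ := hfin.exists_maximal hne'
        refine ⟨b, hb.2, fun c hc => ?_⟩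
        by_contra hcon
        exact absurd (hmax hc (le_of_lt (not_le.1 hcon))) (not_le.2 (not_le.1 hcon))
      · exact ⟨a, ha, fun c hc => absurd ⟨c, hc⟩ hne'⟩
    obtain ⟨b, hb, hb'⟩ := h4
    obtain ⟨c, hc, h5, h6⟩ := h2 b hb
    exact absurd (hb' c ⟨hc, h6⟩) (not_le.2 h5)
  · -- δ < ε : elements above δ are at most `y`
    obtain ⟨c, hc, h5, h6⟩ := h2 (max δ (if y < ε then y else δ)) (by
      split_ifs with hy
      · exact max_lt h hy
      · exact max_lt h h)
    rcases hc with hc | ⟨k, -, rfl⟩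
    · rw [hc] at h5 h6
      rw [if_pos h6] at h5
      exact absurd h5 (not_lt.2 (le_max_right _ _))
    · exact absurd ((le_max_left _ _).trans_lt h5) (not_lt.2 (hlt k).le)

theorem t1_Y : @T1Space _ (topY l) := by
  letI := topY l
  refine ⟨fun x => isClosed_Y.2 (Or.inr ?_)⟩
  have h : acc {x} = ∅ := by
    rw [eq_empty_iff_forall_notMem]
    rintro δ ⟨⟨⟨a, ha⟩, -⟩, h2⟩
    obtain ⟨c, hc, -, h4⟩ := h2 a ha
    rw [mem_singleton_iff.1 hc] at h4
    obtain ⟨d, hd, h5, -⟩ := h2 x h4
    rw [mem_singleton_iff.1 hd] at h5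
    exact lt_irrefl _ h5
  refine ⟨?_, ?_⟩
  · rw [h]; exact finite_empty
  · rw [h]; intro δ hδ; exact absurd hδ (notMem_empty _)

theorem compact_Y : @CompactSpace _ (topY l) := by
  letI := topY l
  rw [← isCompact_univ_iff, isCompact_iff_ultrafilter_le_nhds]
  intro f _
  by_contra hcon
  push Not at hcon
  -- closed sets of the ultrafilter
  have hcl : ∀ x, ∃ C, IsClosed C ∧ C ∈ f ∧ x ∉ C := by
    intro x
    have h1 := hcon x (mem_univ x)
    rw [le_nhds_iff] at h1
    push Not at h1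
    obtain ⟨U, hxU, hU, hUf⟩ := h1
    exact ⟨Uᶜ, hU.isClosed_compl, Ultrafilter.compl_mem_iff_notMem.2 hUf, fun h => h hxU⟩
  -- a proper closed set with the least number of accumulation points
  let N : Set ℕ := {n | ∃ C, Cl l C ∧ C ∈ f ∧ (acc C).ncard = n}
  have hN : N.Nonempty := by
    obtain ⟨C, hC, hCf, hx⟩ := hcl (Classical.arbitrary Om1)
    rcases isClosed_Y.1 hC with h | h
    · rw [h] at hx
      exact absurd (mem_univ _) hx
    · exact ⟨_, C, h, hCf, rfl⟩
  obtain ⟨C, hC, hCf, hCn⟩ := Nat.sInf_mem hN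
  by_cases h0 : acc C = ∅
  · -- finite sets
    have hfin := finite_of_acc h0
    obtain ⟨x, hx⟩ := (Ultrafilter.finite_biUnion_mem_iff (s := fun x => {x}) hfin).1
      (by simpa using hCf)
    obtain ⟨D, hD, hDf, hxD⟩ := hcl x
    have h1 := Filter.inter_mem hx.2 hDf
    obtain ⟨y, hy1, hy2⟩ := f.nonempty_of_mem h1
    rw [mem_singleton_iff.1 hy1] at hy2
    exact hxD hy2
  · obtain ⟨δ, hδ⟩ := nonempty_iff_ne_empty.2 h0
    obtain ⟨D, hD, hDf, hxD⟩ := hcl (l δ)
    have hD' : Cl l D := by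
      rcases isClosed_Y.1 hD with h | h
      · rw [h] at hxD
        exact absurd (mem_univ _) hxD
      · exact h
    have h1 : Cl l (C ∩ D) := by
      refine ⟨hC.1.subset (acc_mono inter_subset_left), fun ε hε => ⟨?_, ?_⟩⟩
      · exact hC.2 ε (acc_mono inter_subset_left hε)
      · exact hD'.2 ε (acc_mono inter_subset_right hε)
    have h2 : acc (C ∩ D) = acc C := by
      refine Set.eq_of_subset_of_ncard_le (acc_mono inter_subset_left) ?_ hC.1
      rw [hCn]
      exact Nat.sInf_le ⟨C ∩ D, h1, Filter.inter_mem hCf hDf, rfl⟩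
    rw [← h2] at hδ
    exact hxD (h1.2 δ hδ).2

/-- An unbounded compact set is the whole space. -/
theorem unbounded_compact (hl : ∀ y, Stat {δ | l δ = y}) {A : Set Om1}
    (hA : @IsCompact _ (topY l) A) (hub : ∀ b, ∃ a ∈ A, b < a) : A = univ := by
  letI := topY l
  rw [eq_univ_iff_forall]
  intro y
  by_contra hy
  choose F hF1 hF2 using hub
  obtain ⟨δ, hδ, hL, hcl⟩ := hl y F
  -- a cofinal sequence in `A`
  have hc := (om1_countable δ).to_subtype
  obtain ⟨⟨a0, ha0⟩, hnext⟩ := hL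
  have : Nonempty (Iio δ) := ⟨⟨a0, ha0⟩⟩
  obtain ⟨e, he⟩ := exists_surjective_nat (Iio δ)
  let s : ℕ → Om1 := fun n => Nat.rec (F a0) (fun n r => F (max r (e n))) n
  have hs0 : s 0 = F a0 := rfl
  have hs : ∀ n, s (n + 1) = F (max (s n) (e n)) := fun n => rfl
  have hsδ : ∀ n, s n < δ := by
    intro n
    induction n with
    | zero => exact hcl _ ha0
    | succ n ih =>
      rw [hs]
      exact hcl _ (max_lt ih (e n).2)
  have hsA : ∀ n, s n ∈ A := by
    intro n
    cases n with
    | zero => exact hF1 _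
    | succ n => rw [hs]; exact hF1 _
  have hmono : StrictMono s := strictMono_nat_of_lt_succ fun n => by
    rw [hs]
    exact (le_max_left _ _).trans_lt (hF2 _)
  have hcof : ∀ a < δ, ∃ n, a ≤ s n := by
    intro a ha
    obtain ⟨n, hn⟩ := he ⟨a, ha⟩
    refine ⟨n + 1, ?_⟩
    rw [hs, hn]
    exact (le_max_right _ _).trans (hF2 _).le
  have hC : ∀ n, IsClosed (insert y (s '' Ici n)) := by
    intro n
    refine isClosed_Y.2 (Or.inr ⟨(finite_singleton δ).subset (acc_seq hmono hsδ hcof y n), ?_⟩)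
    intro ε hε
    rw [mem_singleton_iff.1 (acc_seq hmono hsδ hcof y n hε)]
    exact Or.inl hδ
  obtain ⟨x, hxA, hx⟩ := hA.inter_iInter_nonempty (fun n => insert y (s '' Ici n)) hC (by
    intro u
    refine ⟨s (u.sup id), hsA _, ?_⟩
    rw [mem_iInter₂]
    intro i hi
    exact Or.inr ⟨_, Finset.le_sup (f := id) hi, rfl⟩)
  rw [mem_iInter] at hx
  have hxy : x ≠ y := fun h => hy (h ▸ hxA)
  obtain ⟨k, -, hk⟩ := (hx 0).resolve_left hxy
  obtain ⟨m, hm, hm'⟩ := (hx (k + 1)).resolve_left hxy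
  have := hmono.injective (hk.trans hm'.symm)
  have : k + 1 ≤ m := hm
  omega

/-- The base space is not the union of two proper compact subsets. -/
theorem union_Y (hl : ∀ y, Stat {δ | l δ = y}) (A B : Set Om1) (hA : @IsCompact _ (topY l) A)
    (hB : @IsCompact _ (topY l) B) (h : A ∪ B = univ) : A = univ ∨ B = univ := by
  by_cases hub : ∀ b, ∃ a ∈ A, b < a
  · exact Or.inl (unbounded_compact hl hA hub)
  · right
    refine unbounded_compact hl hB fun b => ?_
    push Not at hub
    obtain ⟨c, hc⟩ := hub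
    obtain ⟨d, hd⟩ := om1_bounded {b, c} (by simp)
    have h1 : d ∉ A := fun h => absurd (hc d h) (not_le.2 (hd c (by simp)))
    have h2 : d ∈ A ∪ B := by rw [h]; exact mem_univ d
    exact ⟨d, h2.resolve_left h1, hd b (by simp)⟩

/-! ### The total space -/

/-- the space of columns over the base space -/
structure Xs (l : Om1 → Om1) where
  /-- the base point -/
  fst : Om1
  /-- the height -/
  snd : ℕ

instance : TopologicalSpace (Xs l) where
  IsOpen U := ∀ p ∈ U, ∃ V, @IsOpen _ (topY l) V ∧ p.fst ∈ V ∧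
    ∀ q : Xs l, q.fst ∈ V → (q.fst = p.fst → p.snd ≤ q.snd) → q ∈ U
  isOpen_univ := fun p _ => ⟨univ, @isOpen_univ _ (topY l), mem_univ _, fun _ _ _ => mem_univ _⟩
  isOpen_inter := by
    rintro s t hs ht p ⟨hps, hpt⟩
    obtain ⟨V, hV, hpV, h1⟩ := hs p hps
    obtain ⟨W, hW, hpW, h2⟩ := ht p hpt
    exact ⟨V ∩ W, @IsOpen.inter _ (topY l) _ _ hV hW, ⟨hpV, hpW⟩,
      fun q hq h => ⟨h1 q hq.1 h, h2 q hq.2 h⟩⟩
  isOpen_sUnion := by
    rintro S hS p ⟨t, ht, hpt⟩
    obtain ⟨V, hV, hpV, h1⟩ := hS t ht p hpt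
    exact ⟨V, hV, hpV, fun q hq h => ⟨t, ht, h1 q hq h⟩⟩

/-- basic neighbourhoods -/
def Nb (V : Set Om1) (y : Om1) (n : ℕ) : Set (Xs l) := {q | q.fst ∈ V ∧ (q.fst = y → n ≤ q.snd)}

theorem isOpen_Nb {V : Set Om1} (hV : @IsOpen _ (topY l) V) (y : Om1) (n : ℕ) :
    IsOpen (Nb V y n : Set (Xs l)) := by
  letI := topY l
  have := t1_Y (l := l)
  rintro ⟨z, k⟩ ⟨hz, hk⟩
  by_cases hzy : z = y
  · refine ⟨V, hV, hz, fun q hq h => ⟨hq, fun h' => (hk hzy).trans (h (h'.trans hzy.symm))⟩⟩
  · refine ⟨V ∩ {y}ᶜ, hV.inter isClosed_singleton.isOpen_compl, ⟨hz, hzy⟩, fun q hq _ => ?_⟩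
    exact ⟨hq.1, fun h' => absurd h' hq.2⟩

theorem mem_closure_Xs (p q : Xs l) : p ∈ closure {q} ↔ p.fst = q.fst ∧ p.snd ≤ q.snd := by
  letI := topY l
  have := t1_Y (l := l)
  constructor
  · intro h
    rw [mem_closure_iff] at h
    have h1 : p.fst = q.fst := by
      by_contra hne
      obtain ⟨r, hr1, hr2⟩ := h (Nb {q.fst}ᶜ p.fst p.snd)
        (isOpen_Nb isClosed_singleton.isOpen_compl _ _) ⟨hne, fun _ => le_rfl⟩
      rw [mem_singleton_iff.1 hr2] at hr1
      exact hr1.1 rfl
    refine ⟨h1, ?_⟩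
    obtain ⟨r, hr1, hr2⟩ := h (Nb univ p.fst p.snd) (isOpen_Nb isOpen_univ _ _)
      ⟨mem_univ _, fun _ => le_rfl⟩
    rw [mem_singleton_iff.1 hr2] at hr1
    exact hr1.2 h1.symm
  · rintro ⟨h1, h2⟩
    rw [mem_closure_iff]
    intro U hU hp
    obtain ⟨V, hV, hpV, h3⟩ := hU p hp
    refine ⟨q, h3 q ?_ fun _ => h2, rfl⟩
    rwa [← h1]

theorem t0_Xs : T0Space (Xs l) := by
  refine ⟨fun p q h => ?_⟩
  have h1 := (mem_closure_Xs p q).1 (specializes_iff_mem_closure.1 h.specializes')
  have h2 := (mem_closure_Xs q p).1 (specializes_iff_mem_closure.1 h.specializes)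
  cases p; cases q
  simp only at h1 h2
  rw [h1.1, le_antisymm h1.2 h2.2]

/-- Removing the bottom point of a column from a compact saturated set. -/
theorem remove {G : Set (Xs l)} (hG : IsCompact G) (hs : IsSat G) {p : Xs l} (_ : p ∈ G)
    (hmin : ∀ q ∈ G, q.fst = p.fst → p.snd ≤ q.snd) :
    IsCompact (G \ {p}) ∧ IsSat (G \ {p}) := by
  letI := topY l
  rw [isSat_iff] at hs
  constructor
  · rw [isCompact_iff_ultrafilter_le_nhds] at hG ⊢
    intro f hf
    rw [Filter.le_principal_iff] at hf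
    obtain ⟨x, hx, hfx⟩ := hG f (Filter.le_principal_iff.2 (Filter.mem_of_superset hf sdiff_subset))
    by_cases hxp : x = p
    · subst hxp
      refine ⟨⟨x.fst, x.snd + 1⟩, ⟨?_, ?_⟩, ?_⟩
      · refine hs x hx _ ((mem_closure_Xs _ _).2 ⟨rfl, Nat.le_succ _⟩)
      · intro h
        have := congrArg Xs.snd (mem_singleton_iff.1 h)
        simp at this
      · rw [le_nhds_iff] at hfx ⊢
        intro U hxU hU
        obtain ⟨V, hV, hxV, h1⟩ := hU _ hxU
        have h2 := hfx (Nb V x.fst x.snd) ⟨hxV, fun _ => le_rfl⟩ (isOpen_Nb hV _ _)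
        refine Filter.mem_of_superset (Filter.inter_mem h2 hf) ?_
        rintro q ⟨⟨hq1, hq2⟩, hq3, hq4⟩
        refine h1 q hq1 fun h => ?_
        have h5 := hq2 h
        rcases eq_or_lt_of_le h5 with h6 | h6
        · exact absurd (show q = x by cases q; cases x; simp_all) hq4
        · exact h6
    · exact ⟨x, ⟨hx, hxp⟩, hfx⟩
  · rw [isSat_iff]
    rintro x ⟨hx, hxp⟩ y hxy
    refine ⟨hs x hx y hxy, ?_⟩
    intro hy
    rw [mem_singleton_iff] at hy
    subst hy
    obtain ⟨h1, h2⟩ := (mem_closure_Xs _ _).1 hxy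
    have h3 := hmin x hx h1
    apply hxp
    cases x; cases y
    simp only at h1 h2 h3
    simp only [mem_singleton_iff, Xs.mk.injEq]
    exact ⟨h1, le_antisymm h2 h3⟩

theorem exists_min {G : Set (Xs l)} {p : Xs l} (hp : p ∈ G) :
    ∃ q ∈ G, q.fst = p.fst ∧ ∀ r ∈ G, r.fst = q.fst → q.snd ≤ r.snd := by
  have h1 : {n | (⟨p.fst, n⟩ : Xs l) ∈ G}.Nonempty := ⟨p.snd, hp⟩
  refine ⟨⟨p.fst, sInf {n | (⟨p.fst, n⟩ : Xs l) ∈ G}⟩, Nat.sInf_mem h1, rfl, ?_⟩
  rintro ⟨z, k⟩ hr h
  simp only at h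
  subst h
  exact Nat.sInf_le hr

theorem coSober_Xs : CoSober (Xs l) := by
  rintro G ⟨⟨p, hp⟩, hGc, hGs, hirr⟩
  obtain ⟨q, hq, -, hmin⟩ := exists_min hp
  have hup := isSat_iff.1 hGs
  refine ⟨q, ?_⟩
  ext r
  change r ∈ G ↔ q ∈ closure {r}
  rw [mem_closure_Xs]
  constructor
  · intro hr
    by_cases h : r.fst = q.fst
    · exact ⟨h.symm, hmin r hr h⟩
    · exfalso
      obtain ⟨t, ht, htr, hmint⟩ := exists_min hr
      have h1 := remove hGc hGs hq hmin
      have h2 := remove hGc hGs ht hmint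
      have hqt : q ≠ t := fun h' => h (by rw [h', htr])
      rcases hirr _ _ h1.1 h1.2 h2.1 h2.2 (by
        ext x
        simp only [mem_union, mem_sdiff, mem_singleton_iff]
        constructor
        · rintro (h | h) <;> exact h.1
        · intro hx
          by_cases hxq : x = q
          · right
            exact ⟨hx, fun h => hqt (hxq.symm.trans h)⟩
          · exact Or.inl ⟨hx, hxq⟩) with h3 | h3
      · have : q ∈ G \ {q} := by rw [h3]; exact hq
        exact this.2 rfl
      · have : t ∈ G \ {t} := by rw [h3]; exact ht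
        exact this.2 rfl
  · rintro ⟨h1, h2⟩
    exact hup q hq r ((mem_closure_Xs _ _).2 ⟨h1, h2⟩)

/-- the kernel operator -/
def ker (p : Xs l) : Xs l := ⟨p.fst, 0⟩

theorem continuous_ker : Continuous (ker : Xs l → Xs l) := by
  refine continuous_def.2 fun U hU => ?_
  intro p hp
  obtain ⟨V, hV, hpV, h1⟩ := hU _ hp
  exact ⟨V, hV, hpV, fun q hq _ => h1 (ker q) hq fun _ => le_rfl⟩

/-- There is a co-sober space with a continuous kernel operator whose image is not co-sober. -/
theorem result :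
    ∃ (X : Type) (_ : TopologicalSpace X) (k : X → X), T0Space X ∧ CoSober X ∧ Continuous k ∧
      (∀ x, k x ∈ closure {x}) ∧ (∀ x, k (k x) = k x) ∧ ¬ CoSober (range k) := by
  obtain ⟨l, hl⟩ := exists_labels
  refine ⟨Xs l, inferInstance, ker, t0_Xs, coSober_Xs, continuous_ker,
    fun x => (mem_closure_Xs _ _).2 ⟨rfl, Nat.zero_le _⟩, fun x => rfl, ?_⟩
  letI := topY l
  have ht1 := t1_Y (l := l)
  have hcp := compact_Y (l := l)
  let e : Om1 ≃ₜ range (ker : Xs l → Xs l) :=
    { toFun := fun y => ⟨⟨y, 0⟩, ⟨⟨y, 0⟩, rfl⟩⟩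
      invFun := fun p => p.1.fst
      left_inv := fun y => rfl
      right_inv := by
        rintro ⟨_, ⟨p, rfl⟩⟩
        rfl
      continuous_toFun := by
        refine Continuous.subtype_mk ?_ _
        refine continuous_def.2 fun U hU => ?_
        rw [isOpen_iff_mem_nhds]
        intro y hy
        obtain ⟨V, hV, hyV, h1⟩ := hU _ hy
        exact Filter.mem_of_superset (hV.mem_nhds hyV) fun z hz =>
          h1 ⟨z, 0⟩ hz fun _ => le_rfl
      continuous_invFun := by
        refine Continuous.comp (g := fun p : Xs l => p.fst) ?_ continuous_subtype_val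
        refine continuous_def.2 fun V hV => ?_
        intro p hp
        exact ⟨V, hV, hp, fun q hq _ => hq⟩ }
  have : T1Space (range (ker : Xs l → Xs l)) := e.symm.isEmbedding.t1Space
  have : CompactSpace (range (ker : Xs l → Xs l)) := e.compactSpace
  have : Nontrivial (range (ker : Xs l → Xs l)) := by
    have : Nontrivial Om1 := by
      obtain ⟨b, hb⟩ := om1_bounded {Classical.arbitrary Om1} (countable_singleton _)
      exact ⟨⟨_, _, (hb _ rfl).ne⟩⟩
    exact e.injective.nontrivial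
  refine not_coSober fun K₁ K₂ h1 h2 h3 => ?_
  have h4 := union_Y hl (e ⁻¹' K₁) (e ⁻¹' K₂) (e.isCompact_preimage.2 h1)
    (e.isCompact_preimage.2 h2) (by rw [← preimage_union, h3, preimage_univ])
  have key : ∀ K : Set (range (ker : Xs l → Xs l)), e ⁻¹' K = univ → K = univ := by
    intro K hK
    rw [eq_univ_iff_forall] at hK ⊢
    intro x
    have := hK (e.symm x)
    rwa [mem_preimage, e.apply_symm_apply] at this
  exact h4.imp (key _) (key _)

end Pool.Agent.Results.MP_1ae613_gt.KernelImage
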